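import Mathlib

/-!
# Prime graph and degree pattern of a finite group
-/

namespace Q20.DegPat

open Classical in
/-- The prime graph (Gruenberg-Kegel graph) of `G`: two distinct primes `p`, `q` are joined
iff `G` has an element of order `p * q`.  For a finite group `G` an edge forces both
primes to divide the order of `G`; natural numbers outside the set of prime divisors
of the order are isolated points. -/
def primeGraph (G : Type*) [Group G] : SimpleGraph ℕ where
  Adj p q := p ≠ q ∧ p.Prime ∧ q.Prime ∧ ∃ g : G, orderOf g = p * q
  symm := ⟨fun p q h => ⟨h.1.symm, h.2.2.1, h.2.1, by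
    obtain ⟨g, hg⟩ := h.2.2.2
    exact ⟨g, by rw [hg, mul_comm]⟩⟩⟩
  loopless := ⟨fun p h => h.1 rfl⟩

open Classical in
/-- The degree of `p` in the prime graph of `G` with vertex set the set of prime divisors
of the order of `G`. -/
noncomputable def primeDegree (G : Type*) [Group G] (p : ℕ) : ℕ :=
  ((Nat.card G).primeFactors.filter (fun q => (primeGraph G).Adj p q)).card

/-- The degree pattern of `G`: the list of the degrees of the prime divisors
`p₁ < p₂ < ... < pₖ` of the order of `G`. -/
noncomputable def degreePattern (G : Type*) [Group G] : List ℕ :=
  ((Nat.card G).primeFactors.sort (· ≤ ·)).map (primeDegree G)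

end Q20.DegPat
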