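import Pool.Agent.Q20.DegPat.Defs

namespace Q20.DegPat

section prod

variable {G H : Type*} [Group G] [Group H] [Finite G] [Finite H]

lemma exists_order_prod {p q : ℕ} (hpq : p ≠ q) (hp : p.Prime) (hq : q.Prime) :
    (∃ g : G × H, orderOf g = p * q) ↔
      (∃ g : G, orderOf g = p * q) ∨ (∃ g : H, orderOf g = p * q) ∨
        (p ∣ Nat.card G ∧ q ∣ Nat.card H) ∨ (q ∣ Nat.card G ∧ p ∣ Nat.card H) := by
  have hcop : Nat.Coprime p q := (Nat.coprime_primes hp hq).2 hpq
  constructor
  · rintro ⟨⟨a, b⟩, h⟩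
    rw [Prod.orderOf] at h
    simp only at h
    have ha : orderOf a ∣ p * q := h ▸ Nat.dvd_lcm_left _ _
    have hb : orderOf b ∣ p * q := h ▸ Nat.dvd_lcm_right _ _
    have hp' : p ∣ orderOf a ∨ p ∣ orderOf b := by
      have : p ∣ orderOf a * orderOf b :=
        ((Dvd.intro q rfl).trans (h ▸ dvd_rfl)).trans (Nat.lcm_dvd_mul _ _)
      exact hp.dvd_mul.1 this
    have hq' : q ∣ orderOf a ∨ q ∣ orderOf b := by
      have : q ∣ orderOf a * orderOf b :=
        ((Dvd.intro_left p rfl).trans (h ▸ dvd_rfl)).trans (Nat.lcm_dvd_mul _ _)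
      exact hq.dvd_mul.1 this
    rcases hp' with hpa | hpb
    · rcases hq' with hqa | hqb
      · left
        exact ⟨a, Nat.dvd_antisymm ha (hcop.mul_dvd_of_dvd_of_dvd hpa hqa)⟩
      · right; right; left
        exact ⟨hpa.trans (orderOf_dvd_natCard a), hqb.trans (orderOf_dvd_natCard b)⟩
    · rcases hq' with hqa | hqb
      · right; right; right
        exact ⟨hqa.trans (orderOf_dvd_natCard a), hpb.trans (orderOf_dvd_natCard b)⟩
      · right; left
        exact ⟨b, Nat.dvd_antisymm hb (hcop.mul_dvd_of_dvd_of_dvd hpb hqb)⟩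
  · have := Fact.mk hp
    have := Fact.mk hq
    rintro (⟨g, hg⟩ | ⟨g, hg⟩ | ⟨h1, h2⟩ | ⟨h1, h2⟩)
    · exact ⟨(g, 1), by rw [Prod.orderOf]; simp [hg]⟩
    · exact ⟨(1, g), by rw [Prod.orderOf]; simp [hg]⟩
    · obtain ⟨a, ha⟩ := exists_prime_orderOf_dvd_card' p h1
      obtain ⟨b, hb⟩ := exists_prime_orderOf_dvd_card' q h2
      exact ⟨(a, b), by rw [Prod.orderOf]; simp [ha, hb, hcop.lcm_eq_mul]⟩
    · obtain ⟨a, ha⟩ := exists_prime_orderOf_dvd_card' q h1
      obtain ⟨b, hb⟩ := exists_prime_orderOf_dvd_card' p h2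
      exact ⟨(a, b), by rw [Prod.orderOf]; simp [ha, hb, hcop.symm.lcm_eq_mul, mul_comm]⟩

end prod

lemma primeFactors_card_prod {G H : Type*} [Group G] [Group H] [Finite G] [Finite H] :
    (Nat.card (G × H)).primeFactors = (Nat.card G).primeFactors ∪ (Nat.card H).primeFactors := by
  rw [Nat.card_prod, Nat.primeFactors_mul Nat.card_pos.ne' Nat.card_pos.ne']

lemma mem_pf {G : Type*} [Group G] [Finite G] {p : ℕ} (hp : p.Prime) :
    p ∈ (Nat.card G).primeFactors ↔ p ∣ Nat.card G := by
  rw [Nat.mem_primeFactors]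
  exact ⟨fun h => h.2.1, fun h => ⟨hp, h, Nat.card_pos.ne'⟩⟩

/-- adjacency in a direct product -/
lemma adj_prod {G H : Type*} [Group G] [Group H] [Finite G] [Finite H] {p q : ℕ} :
    (primeGraph (G × H)).Adj p q ↔
      (primeGraph G).Adj p q ∨ (primeGraph H).Adj p q ∨
        (p ≠ q ∧ ((p ∈ (Nat.card G).primeFactors ∧ q ∈ (Nat.card H).primeFactors) ∨
          (q ∈ (Nat.card G).primeFactors ∧ p ∈ (Nat.card H).primeFactors))) := by
  constructor
  · rintro ⟨hpq, hp, hq, h⟩
    rw [exists_order_prod hpq hp hq] at h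
    rcases h with h | h | h | h
    · exact Or.inl ⟨hpq, hp, hq, h⟩
    · exact Or.inr (Or.inl ⟨hpq, hp, hq, h⟩)
    · exact Or.inr (Or.inr ⟨hpq, Or.inl ⟨(mem_pf hp).2 h.1, (mem_pf hq).2 h.2⟩⟩)
    · exact Or.inr (Or.inr ⟨hpq, Or.inr ⟨(mem_pf hq).2 h.1, (mem_pf hp).2 h.2⟩⟩)
  · rintro (⟨hpq, hp, hq, h⟩ | ⟨hpq, hp, hq, h⟩ | ⟨hpq, h⟩)
    · exact ⟨hpq, hp, hq, (exists_order_prod hpq hp hq).2 (Or.inl h)⟩
    · exact ⟨hpq, hp, hq, (exists_order_prod hpq hp hq).2 (Or.inr (Or.inl h))⟩
    · rcases h with ⟨h1, h2⟩ | ⟨h1, h2⟩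
      · have hp := Nat.prime_of_mem_primeFactors h1
        have hq := Nat.prime_of_mem_primeFactors h2
        exact ⟨hpq, hp, hq, (exists_order_prod hpq hp hq).2
          (Or.inr (Or.inr (Or.inl ⟨(mem_pf hp).1 h1, (mem_pf hq).1 h2⟩)))⟩
      · have hq := Nat.prime_of_mem_primeFactors h1
        have hp := Nat.prime_of_mem_primeFactors h2
        exact ⟨hpq, hp, hq, (exists_order_prod hpq hp hq).2
          (Or.inr (Or.inr (Or.inr ⟨(mem_pf hq).1 h1, (mem_pf hp).1 h2⟩)))⟩

/-- `F` has order `p * r` and no element of order `p * r`. -/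
def IsFrob (F : Type*) [Group F] (p r : ℕ) : Prop :=
  Nat.card F = p * r ∧ ∀ g : F, orderOf g ≠ p * r

lemma no_adj_of_isFrob {F : Type*} [Group F] [Finite F] {p r : ℕ} (hp : p.Prime) (hr : r.Prime)
    (h : IsFrob F p r) (x y : ℕ) : ¬ (primeGraph F).Adj x y := by
  rintro ⟨hxy, hx, hy, g, hg⟩
  have hd : x * y ∣ p * r := by
    rw [← hg, ← h.1]; exact orderOf_dvd_natCard g
  have hx1 : x = p ∨ x = r := by
    rcases hx.dvd_mul.1 ((Dvd.intro y rfl).trans hd) with h | h
    · exact Or.inl ((Nat.prime_dvd_prime_iff_eq hx hp).1 h)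
    · exact Or.inr ((Nat.prime_dvd_prime_iff_eq hx hr).1 h)
  have hy1 : y = p ∨ y = r := by
    rcases hy.dvd_mul.1 ((Dvd.intro_left x rfl).trans hd) with h | h
    · exact Or.inl ((Nat.prime_dvd_prime_iff_eq hy hp).1 h)
    · exact Or.inr ((Nat.prime_dvd_prime_iff_eq hy hr).1 h)
  rcases hx1 with rfl | rfl
  · rcases hy1 with rfl | rfl
    · exact hxy rfl
    · exact h.2 g hg
  · rcases hy1 with rfl | rfl
    · exact h.2 g (by rw [hg, mul_comm])
    · exact hxy rfl

/-- existence of the nonabelian groups of order `p * r` -/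
lemma exists_isFrob {p r : ℕ} (hp : p.Prime) (hr : r.Prime) (h : p ≡ 1 [MOD r]) :
    ∃ (F : Type) (_ : Group F) (_ : Finite F), IsFrob F p r := by
  have := Fact.mk hp
  have := Fact.mk hr
  have hdvd : r ∣ Nat.card (ZMod p)ˣ := by
    rw [Nat.card_eq_fintype_card, ZMod.card_units p]
    exact (Nat.modEq_iff_dvd' hp.one_le).1 h.symm
  obtain ⟨u, hu⟩ := exists_prime_orderOf_dvd_card' r hdvd
  let φ₀ : (ZMod p)ˣ →* MulAut (Multiplicative (ZMod p)) :=
    (MulEquiv.toMonoidHom (MulAutMultiplicative (ZMod p)).symm).comp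
      (DistribMulAction.toAddAut (ZMod p)ˣ (ZMod p))
  let φ : Subgroup.zpowers u →* MulAut (Multiplicative (ZMod p)) :=
    φ₀.comp (Subgroup.zpowers u).subtype
  let F := Multiplicative (ZMod p) ⋊[φ] (Subgroup.zpowers u)
  have : Finite (Multiplicative (ZMod p)) := inferInstanceAs (Finite (ZMod p))
  have : Finite F := Finite.of_equiv _ SemidirectProduct.equivProd.symm
  have hcard : Nat.card F = p * r := by
    rw [SemidirectProduct.card, Nat.card_zpowers, hu]
    congr 1
    exact Nat.card_zmod p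
  refine ⟨F, inferInstance, inferInstance, hcard, fun g hg => ?_⟩
  -- then the group is cyclic, hence commutative
  have hcyc : IsCyclic F := isCyclic_of_orderOf_eq_card g (by rw [hg, hcard])
  have hcomm : ∀ a b : F, a * b = b * a := by
    intro a b
    let _ := hcyc.commGroup
    exact mul_comm a b
  have h1 : (SemidirectProduct.inr (φ := φ) ⟨u, Subgroup.mem_zpowers u⟩) *
    (SemidirectProduct.inl (φ := φ) (Multiplicative.ofAdd (1 : ZMod p))) =
    (SemidirectProduct.inl (φ := φ) (Multiplicative.ofAdd (1 : ZMod p))) *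
    (SemidirectProduct.inr (φ := φ) ⟨u, Subgroup.mem_zpowers u⟩) := hcomm _ _
  have h2 := congrArg SemidirectProduct.left h1
  rw [SemidirectProduct.mul_left, SemidirectProduct.mul_left] at h2
  simp only [SemidirectProduct.left_inr, SemidirectProduct.left_inl,
    SemidirectProduct.right_inr, SemidirectProduct.right_inl, one_mul, map_one, mul_one] at h2
  have h3 : (u : ZMod p) * 1 = 1 := by
    have := congrArg Multiplicative.toAdd h2
    exact this
  have h4 : u = 1 := by
    ext; simpa using h3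
  rw [h4, orderOf_one] at hu
  exact hr.one_lt.ne hu

lemma primeFactors_of_isFrob {F : Type*} [Group F] [Finite F] {p r : ℕ} (hp : p.Prime)
    (hr : r.Prime) (h : IsFrob F p r) : (Nat.card F).primeFactors = {p, r} := by
  rw [h.1, Nat.primeFactors_mul hp.ne_zero hr.ne_zero, hp.primeFactors, hr.primeFactors]
  rfl

lemma adj_big {K F₁ F₂ : Type*} [Group K] [Group F₁] [Group F₂] [Finite K] [Finite F₁]
    [Finite F₂] {p q r s : ℕ} (hp : p.Prime) (hq : q.Prime) (hr : r.Prime) (hs : s.Prime)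
    (h₁ : IsFrob F₁ p r) (h₂ : IsFrob F₂ q s) (x y : ℕ) :
    (primeGraph (K × (F₁ × F₂))).Adj x y ↔
      (primeGraph K).Adj x y ∨
      (x ≠ y ∧ ((x ∈ ({p, r} : Finset ℕ) ∧ y ∈ ({q, s} : Finset ℕ)) ∨
        (y ∈ ({p, r} : Finset ℕ) ∧ x ∈ ({q, s} : Finset ℕ)))) ∨
      (x ≠ y ∧ ((x ∈ (Nat.card K).primeFactors ∧ y ∈ ({p, r} ∪ {q, s} : Finset ℕ)) ∨
        (y ∈ (Nat.card K).primeFactors ∧ x ∈ ({p, r} ∪ {q, s} : Finset ℕ)))) := by
  rw [adj_prod, adj_prod, primeFactors_card_prod, primeFactors_of_isFrob hp hr h₁,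
    primeFactors_of_isFrob hq hs h₂]
  have e1 := no_adj_of_isFrob hp hr h₁ x y
  have e2 := no_adj_of_isFrob hq hs h₂ x y
  tauto

open Classical in
lemma degree_big {K F₁ F₂ : Type*} [Group K] [Group F₁] [Group F₂] [Finite K] [Finite F₁]
    [Finite F₂] {p q r s : ℕ} (hp : p.Prime) (hq : q.Prime) (hr : r.Prime) (hs : s.Prime)
    (h₁ : IsFrob F₁ p r) (h₂ : IsFrob F₂ q s)
    (hpr : p ≠ r) (hqs : q ≠ s) (hpq : p ≠ q) (hps : p ≠ s) (hqr : q ≠ r) (hrs : r ≠ s)
    (kp : p ∉ (Nat.card K).primeFactors) (kq : q ∉ (Nat.card K).primeFactors)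
    (kr : r ∉ (Nat.card K).primeFactors) (ks : s ∉ (Nat.card K).primeFactors) (x : ℕ)
    (hx : x ∈ (Nat.card K).primeFactors ∪ ({p, r} ∪ {q, s})) :
    primeDegree (K × (F₁ × F₂)) x =
      if x ∈ (Nat.card K).primeFactors then primeDegree K x + 4
      else (Nat.card K).primeFactors.card + 2 := by
  have hpf : (Nat.card (K × (F₁ × F₂))).primeFactors =
      (Nat.card K).primeFactors ∪ ({p, r} ∪ {q, s}) := by
    rw [primeFactors_card_prod, primeFactors_card_prod, primeFactors_of_isFrob hp hr h₁,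
      primeFactors_of_isFrob hq hs h₂]
  unfold primeDegree
  rw [hpf]
  have hdisj : Disjoint (Nat.card K).primeFactors ({p, r} ∪ {q, s}) := by
    rw [Finset.disjoint_right]
    intro a ha
    simp only [Finset.mem_union, Finset.mem_insert, Finset.mem_singleton] at ha
    rcases ha with (rfl | rfl) | (rfl | rfl) <;> assumption
  have hKadj : ∀ a b, (primeGraph K).Adj a b →
      a ∈ (Nat.card K).primeFactors ∧ b ∈ (Nat.card K).primeFactors := by
    rintro a b ⟨_, ha, hb, g, hg⟩
    have := orderOf_dvd_natCard g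
    rw [hg] at this
    exact ⟨(mem_pf ha).2 ((Dvd.intro b rfl).trans this),
      (mem_pf hb).2 ((Dvd.intro_left a rfl).trans this)⟩
  split_ifs with hxK
  · have : ((Nat.card K).primeFactors ∪ ({p, r} ∪ {q, s})).filter
        (fun y => (primeGraph (K × (F₁ × F₂))).Adj x y) =
        ((Nat.card K).primeFactors.filter (fun y => (primeGraph K).Adj x y)) ∪
          ({p, r} ∪ {q, s}) := by
      ext y
      rw [Finset.mem_filter, adj_big hp hq hr hs h₁ h₂]
      have hx' : x ∉ ({p, r} ∪ {q, s} : Finset ℕ) := Finset.disjoint_left.1 hdisj hxK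
      have hx1 : x ∉ ({p, r} : Finset ℕ) := fun h => hx' (Finset.mem_union_left _ h)
      have hx2 : x ∉ ({q, s} : Finset ℕ) := fun h => hx' (Finset.mem_union_right _ h)
      constructor
      · rintro ⟨hy, h⟩
        rcases h with h | ⟨_, h⟩ | ⟨_, h⟩
        · exact Finset.mem_union_left _ (Finset.mem_filter.2 ⟨(hKadj _ _ h).2, h⟩)
        · exfalso
          rcases h with h | h
          · exact hx1 h.1
          · exact hx2 h.2
        · rcases h with h | h
          · exact Finset.mem_union_right _ h.2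
          · exact absurd h.2 hx'
      · intro hy
        rcases Finset.mem_union.1 hy with hy | hy
        · rw [Finset.mem_filter] at hy
          exact ⟨Finset.mem_union_left _ hy.1, Or.inl hy.2⟩
        · refine ⟨Finset.mem_union_right _ hy, Or.inr (Or.inr ⟨?_, Or.inl ⟨hxK, hy⟩⟩)⟩
          rintro rfl
          exact hx' hy
    rw [this, Finset.card_union_of_disjoint]
    · congr 1
      rw [Finset.card_union_of_disjoint]
      · rw [Finset.card_pair hpr, Finset.card_pair hqs]
      · rw [Finset.disjoint_left]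
        intro a ha
        simp only [Finset.mem_insert, Finset.mem_singleton] at ha ⊢
        rcases ha with rfl | rfl <;> tauto
    · exact Finset.disjoint_of_subset_left (Finset.filter_subset _ _) hdisj
  · have hx' : x ∈ ({p, r} ∪ {q, s} : Finset ℕ) := by
      rcases Finset.mem_union.1 hx with h | h
      · exact absurd h hxK
      · exact h
    have hdpq : Disjoint ({p, r} : Finset ℕ) {q, s} := by
      rw [Finset.disjoint_left]
      intro a ha
      simp only [Finset.mem_insert, Finset.mem_singleton] at ha ⊢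
      rcases ha with rfl | rfl <;> tauto
    have key : ∀ A B : Finset ℕ, ({p, r} ∪ {q, s} : Finset ℕ) = A ∪ B → Disjoint A B →
        x ∈ A → (∀ y, ((x ∈ ({p, r} : Finset ℕ) ∧ y ∈ ({q, s} : Finset ℕ)) ∨
        (y ∈ ({p, r} : Finset ℕ) ∧ x ∈ ({q, s} : Finset ℕ))) ↔ y ∈ B) → B.card = 2 →
        (((Nat.card K).primeFactors ∪ ({p, r} ∪ {q, s})).filter
        (fun y => (primeGraph (K × (F₁ × F₂))).Adj x y)).card =
        (Nat.card K).primeFactors.card + 2 := by
      intro A B hAB hd hxA hB hB2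
      have : ((Nat.card K).primeFactors ∪ ({p, r} ∪ {q, s})).filter
        (fun y => (primeGraph (K × (F₁ × F₂))).Adj x y) = (Nat.card K).primeFactors ∪ B := by
        ext y
        rw [Finset.mem_filter, adj_big hp hq hr hs h₁ h₂, hB y]
        constructor
        · rintro ⟨hy, h⟩
          rcases h with h | ⟨_, h⟩ | ⟨_, h⟩
          · exact absurd (hKadj _ _ h).1 hxK
          · exact Finset.mem_union_right _ h
          · rcases h with h | h
            · exact absurd h.1 hxK
            · exact Finset.mem_union_left _ h.1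
        · intro hy
          rcases Finset.mem_union.1 hy with hy | hy
          · refine ⟨Finset.mem_union_left _ hy, Or.inr (Or.inr ⟨?_, Or.inr ⟨hy, hx'⟩⟩)⟩
            rintro rfl
            exact hxK hy
          · refine ⟨Finset.mem_union_right _ (hAB ▸ Finset.mem_union_right _ hy),
              Or.inr (Or.inl ⟨?_, hy⟩)⟩
            rintro rfl
            exact Finset.disjoint_left.1 hd hxA hy
      rw [this, Finset.card_union_of_disjoint, hB2]
      refine Finset.disjoint_of_subset_right ?_ hdisj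
      rw [hAB]
      exact Finset.subset_union_right
    rcases Finset.mem_union.1 hx' with h | h
    · refine key {p, r} {q, s} rfl hdpq h ?_ (Finset.card_pair hqs)
      intro y
      have : x ∉ ({q, s} : Finset ℕ) := Finset.disjoint_left.1 hdpq h
      tauto
    · refine key {q, s} {p, r} (Finset.union_comm _ _) hdpq.symm h ?_ (Finset.card_pair hpr)
      intro y
      have : x ∉ ({p, r} : Finset ℕ) := Finset.disjoint_right.1 hdpq h
      tauto

theorem main (K : Type) [Group K] [Finite K] :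
    ∃ (A B : Type) (_ : Group A) (_ : Group B) (_ : Finite A) (_ : Finite B),
      Nat.card (K × A) = Nat.card (K × B) ∧
      degreePattern (K × A) = degreePattern (K × B) ∧
      primeGraph (K × A) ≠ primeGraph (K × B) := by
  obtain ⟨r, hr1, hr⟩ := Nat.exists_infinite_primes (Nat.card K + 1)
  obtain ⟨s, hs1, hs⟩ := Nat.exists_infinite_primes (r + 1)
  obtain ⟨p, hp, hp1, hpm⟩ := Nat.exists_prime_gt_modEq_one (k := r * s) s
    (mul_ne_zero hr.ne_zero hs.ne_zero)
  obtain ⟨q, hq, hq1, hqm⟩ := Nat.exists_prime_gt_modEq_one (k := r * s) p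
    (mul_ne_zero hr.ne_zero hs.ne_zero)
  have hpr : p ≡ 1 [MOD r] := hpm.of_dvd (Dvd.intro s rfl)
  have hps : p ≡ 1 [MOD s] := hpm.of_dvd (Dvd.intro_left r rfl)
  have hqr : q ≡ 1 [MOD r] := hqm.of_dvd (Dvd.intro s rfl)
  have hqs : q ≡ 1 [MOD s] := hqm.of_dvd (Dvd.intro_left r rfl)
  obtain ⟨F₁, _, _, h₁⟩ := exists_isFrob hp hr hpr
  obtain ⟨F₂, _, _, h₂⟩ := exists_isFrob hq hs hqs
  obtain ⟨F₃, _, _, h₃⟩ := exists_isFrob hp hs hps
  obtain ⟨F₄, _, _, h₄⟩ := exists_isFrob hq hr hqr
  have knot : ∀ x, Nat.card K < x → x ∉ (Nat.card K).primeFactors := by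
    intro x hx h
    exact absurd (Nat.le_of_dvd Nat.card_pos (Nat.dvd_of_mem_primeFactors h)) (by omega)
  have kr := knot r (by omega)
  have ks := knot s (by omega)
  have kp := knot p (by omega)
  have kq := knot q (by omega)
  have hcard : Nat.card (K × (F₁ × F₂)) = Nat.card (K × (F₃ × F₄)) := by
    rw [Nat.card_prod, Nat.card_prod, Nat.card_prod, Nat.card_prod, h₁.1, h₂.1, h₃.1, h₄.1]
    ring
  refine ⟨F₁ × F₂, F₃ × F₄, inferInstance, inferInstance, inferInstance, inferInstance,
    hcard, ?_, ?_⟩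
  · unfold degreePattern
    rw [← hcard]
    apply List.map_congr_left
    intro x hx
    rw [Finset.mem_sort, primeFactors_card_prod, primeFactors_card_prod,
      primeFactors_of_isFrob hp hr h₁, primeFactors_of_isFrob hq hs h₂] at hx
    rw [degree_big hp hq hr hs h₁ h₂ (by omega) (by omega) (by omega) (by omega) (by omega)
      (by omega) kp kq kr ks x hx,
      degree_big hp hq hs hr h₃ h₄ (by omega) (by omega) (by omega) (by omega) (by omega)
      (by omega) kp kq ks kr x ?_]
    simp only [Finset.mem_union, Finset.mem_insert, Finset.mem_singleton] at hx ⊢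
    tauto
  · intro heq
    have h1 : (primeGraph (K × (F₁ × F₂))).Adj p s := by
      rw [adj_big hp hq hr hs h₁ h₂]
      right; left
      refine ⟨by omega, Or.inl ⟨by simp, by simp⟩⟩
    rw [heq, adj_big hp hq hs hr h₃ h₄] at h1
    have hps' : p ≠ s := by omega
    have hpq' : p ≠ q := by omega
    have hpr' : p ≠ r := by omega
    have hsr' : s ≠ r := by omega
    have hsq' : s ≠ q := by omega
    rcases h1 with ⟨_, _, _, g, hg⟩ | ⟨_, h⟩ | ⟨_, h⟩
    · apply kp
      rw [mem_pf hp]
      exact (Dvd.intro s rfl).trans (hg ▸ orderOf_dvd_natCard g)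
    · simp only [Finset.mem_insert, Finset.mem_singleton] at h
      tauto
    · rcases h with h | h
      · exact kp h.1
      · exact ks h.1

end Q20.DegPat
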